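import Mathlib

/-!
# The canonical configuration: five interleaved classes with two hubs each

`pv i a` is the position of the vertex of class `i` with index `a` (four indices), `ph i b` the
position of the hub `b` of class `i`.  The data are canonical (independent of the indices).
We show that five colours do not suffice.
-/

set_option autoImplicit false

namespace Pool.Agent.Helper63.SQ6

/-- The segments with ends `p, x` and `q, y` cross. -/
def Cross (p x q y : ℕ) : Prop :=
  (p < q ∧ q < x ∧ x < y) ∨ (p < y ∧ y < x ∧ x < q) ∨ (x < q ∧ q < p ∧ p < y) ∨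
  (x < y ∧ y < p ∧ p < q) ∨ (q < p ∧ p < y ∧ y < x) ∨ (q < x ∧ x < y ∧ y < p) ∨
  (y < p ∧ p < q ∧ q < x) ∨ (y < x ∧ x < q ∧ q < p)

/-- The other end of the edge in slot `a` at the vertex of class `i` and index `s`. -/
def slot {ι : Type} (pv : Fin 5 → ι → ℕ) (ph : Fin 5 → Bool → ℕ) (i : Fin 5) (a : Fin 4) (s : ι) :
    ℕ :=
  match a with
  | 0 => ph i false
  | 1 => ph i true
  | 2 => pv (i + 1) s
  | 3 => pv (i - 1) s

/-- The canonical configuration without monochromatic crossings. -/
structure Canon (pv : Fin 5 → Fin 4 → ℕ) (ph : Fin 5 → Bool → ℕ)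
    (col : Fin 5 → Fin 4 → Fin 5) : Prop where
  h1 : ∀ (i j : Fin 5) (a b c d : Fin 4), a < b → c < d → (pv i a < pv j b ↔ pv i c < pv j d)
  h2 : ∀ (i : Fin 5) (b : Bool) (j : Fin 5) (a c : Fin 4),
    (ph i b < pv j a ↔ ph i b < pv j c)
  h3 : ∀ (i j : Fin 5) (a b : Fin 4), (i, a) ≠ (j, b) → pv i a ≠ pv j b
  h4 : ∀ (i j : Fin 5) (a b : Bool), (i, a) ≠ (j, b) → ph i a ≠ ph j b
  h5 : ∀ (i j : Fin 5) (a : Bool) (b : Fin 4), ph i a ≠ pv j b
  nc : ∀ (i j : Fin 5) (a b s t : Fin 4), col i a = col j b →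
    ¬ Cross (pv i s) (slot pv ph i a s) (pv j t) (slot pv ph j b t)

variable {pv : Fin 5 → Fin 4 → ℕ} {ph : Fin 5 → Bool → ℕ} {col : Fin 5 → Fin 4 → Fin 5}

/-- `i` is below `j` at increasing indices. -/
def LL (pv : Fin 5 → Fin 4 → ℕ) (i j : Fin 5) : Prop := pv i 0 < pv j 1

/-- The classes `i` and `j` are interleaved. -/
def II (pv : Fin 5 → Fin 4 → ℕ) (i j : Fin 5) : Prop := LL pv i j ↔ LL pv j i

/-- class `i` is before class `j` (on the two middle indices). -/
def Bef (p q : Fin 4 → ℕ) : Prop := ∀ s t : Fin 4, (s = 1 ∨ s = 2) → (t = 1 ∨ t = 2) → p s < q t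

theorem Canon.lt_iff (C : Canon pv ph col) {i j : Fin 5} {a b : Fin 4} (h : a < b) :
    pv i a < pv j b ↔ LL pv i j := C.h1 i j a b 0 1 h (by decide)

theorem Canon.gt_iff (C : Canon pv ph col) {i j : Fin 5} {a b : Fin 4} (h : a < b) :
    pv i b < pv j a ↔ ¬ LL pv j i := by
  rw [← C.lt_iff h, not_lt]
  have : pv i b ≠ pv j a := C.h3 _ _ _ _ (by
    intro e
    rw [Prod.mk.injEq] at e
    exact absurd e.2 h.ne')
  omega

theorem Canon.trans (C : Canon pv ph col) {i j k : Fin 5} (h : LL pv i j) (h' : LL pv j k) :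
    LL pv i k := by
  have e1 := (C.lt_iff (i := i) (j := j) (a := 0) (b := 1) (by decide)).2 h
  have e2 := (C.lt_iff (i := j) (j := k) (a := 1) (b := 2) (by decide)).2 h'
  exact (C.lt_iff (i := i) (j := k) (a := 0) (b := 2) (by decide)).1 (e1.trans e2)

theorem Canon.ntrans (C : Canon pv ph col) {i j k : Fin 5} (h : ¬ LL pv i j)
    (h' : ¬ LL pv j k) : ¬ LL pv i k := by
  have e1 := (C.gt_iff (i := j) (j := i) (a := 0) (b := 1) (by decide)).2 h
  have e2 := (C.gt_iff (i := k) (j := j) (a := 1) (b := 2) (by decide)).2 h'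
  exact (C.gt_iff (i := k) (j := i) (a := 0) (b := 2) (by decide)).1 (e2.trans e1)

theorem II.refl (i : Fin 5) : II pv i i := Iff.rfl

theorem II.symm {i j : Fin 5} (h : II pv i j) : II pv j i := Iff.symm h

/-- In an interleaved pair the common direction is that of the classes. -/
theorem Canon.dir (C : Canon pv ph col) {i j : Fin 5} (h : II pv i j) :
    LL pv i j ↔ LL pv i i := by
  by_cases e : LL pv i j
  · exact ⟨fun _ => C.trans e (h.1 e), fun _ => e⟩
  · have e' : ¬ LL pv j i := fun x => e (h.2 x)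
    exact ⟨fun x => absurd x e, fun x => absurd x (C.ntrans e e')⟩

theorem Canon.dir' (C : Canon pv ph col) {i j : Fin 5} (h : II pv i j) :
    LL pv i i ↔ LL pv j j := by
  rw [← C.dir h, ← C.dir h.symm]
  exact h

theorem Canon.II_trans (C : Canon pv ph col) {i j k : Fin 5} (h : II pv i j) (h' : II pv j k) :
    II pv i k := by
  have a1 := C.dir h
  have a2 := C.dir h.symm
  have a3 := C.dir h'
  have a4 := C.dir h'.symm
  have a5 := C.dir' h
  have a6 := C.dir' h'
  by_cases e : LL pv j j
  · exact ⟨fun _ => C.trans (a4.2 (a6.1 e)) (a2.2 e),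
      fun _ => C.trans (a1.2 (a5.2 e)) (a3.2 e)⟩
  · have n1 : ¬ LL pv i j := fun x => e (a5.1 (a1.1 x))
    have n2 : ¬ LL pv j k := fun x => e (a3.1 x)
    have n3 : ¬ LL pv k j := fun x => e (a6.2 (a4.1 x))
    have n4 : ¬ LL pv j i := fun x => e (a2.1 x)
    exact ⟨fun x => absurd x (C.ntrans n1 n2), fun x => absurd x (C.ntrans n3 n4)⟩

/-- Interleaved classes occur in both orders. -/
theorem Canon.two (C : Canon pv ph col) {i j : Fin 5} (h : II pv i j) :
    (∃ s t : Fin 4, (s = 1 ∨ s = 2) ∧ (t = 1 ∨ t = 2) ∧ pv i s < pv j t) ∧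
    (∃ s t : Fin 4, (s = 1 ∨ s = 2) ∧ (t = 1 ∨ t = 2) ∧ pv j t < pv i s) := by
  by_cases e : LL pv i j
  · exact ⟨⟨1, 2, Or.inl rfl, Or.inr rfl, (C.lt_iff (by decide)).2 e⟩,
      ⟨2, 1, Or.inr rfl, Or.inl rfl, (C.lt_iff (by decide)).2 (h.1 e)⟩⟩
  · exact ⟨⟨2, 1, Or.inr rfl, Or.inl rfl, (C.gt_iff (by decide)).2 (fun x => e (h.2 x))⟩,
      ⟨1, 2, Or.inl rfl, Or.inr rfl, (C.gt_iff (by decide)).2 e⟩⟩

theorem Canon.sep_aux (C : Canon pv ph col) {i j : Fin 5} (h : LL pv i j) (h' : ¬ LL pv j i) :
    Bef (pv i) (pv j) := by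
  have key : ∀ s : Fin 4, (s = 1 ∨ s = 2) → pv i s < pv j s := by
    intro s hs
    have s0 : (0 : Fin 4) < s := by rcases hs with rfl | rfl <;> decide
    have s3 : s < (3 : Fin 4) := by rcases hs with rfl | rfl <;> decide
    by_cases d : LL pv i i
    · exact ((C.lt_iff s3).2 d).trans ((C.gt_iff s3).2 h')
    · exact ((C.gt_iff s0).2 d).trans ((C.lt_iff s0).2 h)
  intro s t hs ht
  rcases lt_trichotomy s t with e | e | e
  · exact (C.lt_iff e).2 h
  · subst e
    exact key s hs
  · exact (C.gt_iff e).2 h'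

/-- Classes that are not interleaved are separated. -/
theorem Canon.sep (C : Canon pv ph col) {i j : Fin 5} (h : ¬ II pv i j) :
    Bef (pv i) (pv j) ∨ Bef (pv j) (pv i) := by
  by_cases e : LL pv i j
  · by_cases e' : LL pv j i
    · exact absurd ⟨fun _ => e', fun _ => e⟩ h
    · exact Or.inl (C.sep_aux e e')
  · by_cases e' : LL pv j i
    · exact Or.inr (C.sep_aux e' e)
    · exact absurd ⟨fun x => absurd x e, fun x => absurd x e'⟩ h

/-- The crossing lemma. -/
theorem key {p q x y : Fin 4 → ℕ}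
    (h1 : ∃ s t : Fin 4, (s = 1 ∨ s = 2) ∧ (t = 1 ∨ t = 2) ∧ p s < q t)
    (h2 : ∃ s t : Fin 4, (s = 1 ∨ s = 2) ∧ (t = 1 ∨ t = 2) ∧ q t < p s)
    (hx : (Bef x p ∧ Bef x q) ∨ (Bef p x ∧ Bef q x))
    (hy : (Bef y p ∧ Bef y q) ∨ (Bef p y ∧ Bef q y))
    (hxy : Bef x y ∨ Bef y x) :
    ∃ s t : Fin 4, Cross (p s) (x s) (q t) (y t) := by
  obtain ⟨s, t, hs, ht, h1⟩ := h1
  obtain ⟨s', t', hs', ht', h2⟩ := h2
  rcases hx with ⟨xp, xq⟩ | ⟨px, qx⟩
  · rcases hy with ⟨yp, yq⟩ | ⟨py, qy⟩
    · rcases hxy with xy | yx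
      · exact ⟨s, t, by
          have := xy s t hs ht
          have := yp t s ht hs
          unfold Cross; omega⟩
      · exact ⟨s', t', by
          have := yx t' s' ht' hs'
          have := xq s' t' hs' ht'
          unfold Cross; omega⟩
    · exact ⟨s', t', by
        have := xq s' t' hs' ht'
        have := py s' t' hs' ht'
        unfold Cross; omega⟩
  · rcases hy with ⟨yp, yq⟩ | ⟨py, qy⟩
    · exact ⟨s, t, by
        have := yp t s ht hs
        have := qx t s ht hs
        unfold Cross; omega⟩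
    · rcases hxy with xy | yx
      · exact ⟨s, t, by
          have := xy s t hs ht
          have := qx t s ht hs
          unfold Cross; omega⟩
      · exact ⟨s', t', by
          have := yx t' s' ht' hs'
          have := py s' t' hs' ht'
          unfold Cross; omega⟩

/-- A class outside an interleaved pair lies on one side of both. -/
theorem Canon.side (C : Canon pv ph col) {i j k : Fin 5} (h : II pv i j) (hk : ¬ II pv k i) :
    (Bef (pv k) (pv i) ∧ Bef (pv k) (pv j)) ∨ (Bef (pv i) (pv k) ∧ Bef (pv j) (pv k)) := by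
  have hk' : ¬ II pv k j := fun x => hk (C.II_trans x h.symm)
  obtain ⟨⟨s, t, hs, ht, h1⟩, ⟨s', t', hs', ht', h2⟩⟩ := C.two h
  rcases C.sep hk with a | a
  · rcases C.sep hk' with b | b
    · exact Or.inl ⟨a, b⟩
    · exfalso
      have e1 := b t s ht hs
      have e2 := a s s hs hs
      omega
  · rcases C.sep hk' with b | b
    · exfalso
      have e1 := b t' t' ht' ht'
      have e2 := a s' t' hs' ht'
      omega
    · exact Or.inr ⟨a, b⟩

/-- A hub lies on one side of a class. -/
theorem Canon.hub_side1 (C : Canon pv ph col) (i : Fin 5) (b : Bool) (j : Fin 5) :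
    Bef (fun _ => ph i b) (pv j) ∨ Bef (pv j) (fun _ => ph i b) := by
  by_cases h : ph i b < pv j 0
  · left
    intro s t _ _
    exact (C.h2 i b j 0 t).1 h
  · right
    intro s t _ _
    have e : ¬ ph i b < pv j s := fun x => h ((C.h2 i b j s 0).1 x)
    have := C.h5 i j b s
    show pv j s < ph i b
    omega

/-- A hub lies on one side of an interleaved pair. -/
theorem Canon.hub_side (C : Canon pv ph col) (k : Fin 5) (b : Bool) {i j : Fin 5}
    (h : II pv i j) :
    (Bef (fun _ => ph k b) (pv i) ∧ Bef (fun _ => ph k b) (pv j)) ∨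
    (Bef (pv i) (fun _ => ph k b) ∧ Bef (pv j) (fun _ => ph k b)) := by
  obtain ⟨⟨s, t, hs, ht, h1⟩, ⟨s', t', hs', ht', h2⟩⟩ := C.two h
  rcases C.hub_side1 k b i with a | a
  · rcases C.hub_side1 k b j with c | c
    · exact Or.inl ⟨a, c⟩
    · exfalso
      have e1 : ph k b < pv i s := a s s hs hs
      have e2 : pv j t < ph k b := c t t ht ht
      omega
  · rcases C.hub_side1 k b j with c | c
    · exfalso
      have e1 : pv i s' < ph k b := a s' s' hs' hs'
      have e2 : ph k b < pv j t' := c t' t' ht' ht'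
      omega
    · exact Or.inr ⟨a, c⟩

theorem slot_false (i : Fin 5) : slot pv ph i 0 = fun _ => ph i false := rfl
theorem slot_true (i : Fin 5) : slot pv ph i 1 = fun _ => ph i true := rfl
theorem slot_next (i : Fin 5) : slot pv ph i 2 = pv (i + 1) := rfl
theorem slot_prev (i : Fin 5) : slot pv ph i 3 = pv (i - 1) := rfl

/-- the hub slot -/
def hs (b : Bool) : Fin 4 := if b then 1 else 0

theorem slot_hub (i : Fin 5) (b : Bool) : slot pv ph i (hs b) = fun _ => ph i b := by
  cases b <;> rfl

/-- Two hubs of interleaved classes have different colours. -/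
theorem Canon.hub_hub (C : Canon pv ph col) {i j : Fin 5} (h : II pv i j) {a b : Bool}
    (hne : (i, a) ≠ (j, b)) : col i (hs a) ≠ col j (hs b) := by
  intro e
  obtain ⟨t1, t2⟩ := C.two h
  have hne' := C.h4 i j a b hne
  have hxy : Bef (slot pv ph i (hs a)) (slot pv ph j (hs b)) ∨
      Bef (slot pv ph j (hs b)) (slot pv ph i (hs a)) := by
    rw [slot_hub, slot_hub]
    rcases lt_or_gt_of_ne hne' with x | x
    · exact Or.inl fun _ _ _ _ => x
    · exact Or.inr fun _ _ _ _ => x
  obtain ⟨s, t, hc⟩ := key (p := pv i) (q := pv j) (x := slot pv ph i (hs a))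
    (y := slot pv ph j (hs b)) t1 t2
    (by rw [slot_hub]; exact C.hub_side i a h) (by rw [slot_hub]; exact C.hub_side j b h) hxy
  exact C.nc i j (hs a) (hs b) s t e hc

/-- A hub and a class outside have different colours. -/
theorem Canon.hub_class (C : Canon pv ph col) {i j k : Fin 5} (h : II pv i j) (a : Bool)
    {b : Fin 4} (hb : slot pv ph j b = pv k) (hk : ¬ II pv k j) : col i (hs a) ≠ col j b := by
  intro e
  obtain ⟨t1, t2⟩ := C.two h
  have hk' : ¬ II pv k i := fun x => hk (C.II_trans x h)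
  have hxy : Bef (slot pv ph i (hs a)) (slot pv ph j b) ∨
      Bef (slot pv ph j b) (slot pv ph i (hs a)) := by
    rw [slot_hub, hb]
    exact C.hub_side1 i a k
  obtain ⟨s, t, hc⟩ := key (p := pv i) (q := pv j) (x := slot pv ph i (hs a))
    (y := slot pv ph j b) t1 t2
    (by rw [slot_hub]; exact C.hub_side i a h) (by rw [hb]; exact C.side h hk') hxy
  exact C.nc i j (hs a) b s t e hc

/-- Two classes outside, separated from each other, have different colours. -/
theorem Canon.class_class (C : Canon pv ph col) {i j k l : Fin 5} (h : II pv i j)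
    {a b : Fin 4} (ha : slot pv ph i a = pv k) (hb : slot pv ph j b = pv l)
    (hk : ¬ II pv k i) (hl : ¬ II pv l j) (hkl : ¬ II pv k l) : col i a ≠ col j b := by
  intro e
  obtain ⟨t1, t2⟩ := C.two h
  have hl' : ¬ II pv l i := fun x => hl (C.II_trans x h)
  obtain ⟨s, t, hc⟩ := key (p := pv i) (q := pv j) (x := slot pv ph i a)
    (y := slot pv ph j b) t1 t2
    (by rw [ha]; exact C.side h hk) (by rw [hb]; exact C.side h hl')
    (by rw [ha, hb]; exact C.sep hkl)
  exact C.nc i j a b s t e hc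

/-- Adjacent classes of the same direction are interleaved. -/
theorem Canon.adj (C : Canon pv ph col) {i : Fin 5} (h : LL pv i i ↔ LL pv (i + 1) (i + 1)) :
    II pv i (i + 1) := by
  by_contra hn
  have nc := C.nc i i 2 2 1 2 rfl
  rw [slot_next] at nc
  apply nc
  unfold Cross
  by_cases d : LL pv i i
  · have d' := h.1 d
    have e1 : pv i 1 < pv i 2 := (C.lt_iff (by decide)).2 d
    have e2 : pv (i + 1) 1 < pv (i + 1) 2 := (C.lt_iff (by decide)).2 d'
    rcases C.sep hn with s | s
    · have := s 2 1 (by decide) (by decide)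
      omega
    · have := s 2 1 (by decide) (by decide)
      omega
  · have d' : ¬ LL pv (i + 1) (i + 1) := fun x => d (h.2 x)
    have e1 : pv i 2 < pv i 1 := (C.gt_iff (by decide)).2 d
    have e2 : pv (i + 1) 2 < pv (i + 1) 1 := (C.gt_iff (by decide)).2 d'
    rcases C.sep hn with s | s
    · have := s 1 2 (by decide) (by decide)
      omega
    · have := s 1 2 (by decide) (by decide)
      omega

/-- Six pairwise different colours are too many. -/
theorem six (a b c d e f : Fin 5) (h : [a, b, c, d, e, f].Nodup) : False := by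
  have := h.length_le_card
  simp at this

/-- Three interleaved classes are too many. -/
theorem Canon.three (C : Canon pv ph col) {i j k : Fin 5} (hij : II pv i j) (hjk : II pv j k)
    (n1 : i ≠ j) (n2 : j ≠ k) (n3 : i ≠ k) : False := by
  have hik := C.II_trans hij hjk
  have A : ∀ {x y : Fin 5} (_ : II pv x y) (a b : Bool), (x ≠ y ∨ a ≠ b) →
      col x (hs a) ≠ col y (hs b) := by
    intro x y h a b hne
    refine C.hub_hub h ?_
    intro e
    rw [Prod.mk.injEq] at e
    rcases hne with x | x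
    · exact x e.1
    · exact x e.2
  refine six (col i (hs false)) (col i (hs true)) (col j (hs false)) (col j (hs true))
    (col k (hs false)) (col k (hs true)) ?_
  have b1 := A (II.refl i) false true (Or.inr (by decide))
  have b2 := A (II.refl j) false true (Or.inr (by decide))
  have b3 := A (II.refl k) false true (Or.inr (by decide))
  have c1 := fun a b => A hij a b (Or.inl n1)
  have c2 := fun a b => A hjk a b (Or.inl n2)
  have c3 := fun a b => A hik a b (Or.inl n3)
  simp [b1, b2, b3, c1, c2, c3]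

/-- Two interleaved classes with two separated outside classes are too many. -/
theorem Canon.pair (C : Canon pv ph col) {i j x y k l : Fin 5} (hij : II pv i j) (n1 : i ≠ j)
    {a b : Fin 4} (hx : x = i ∨ x = j) (hy : y = i ∨ y = j)
    (ha : slot pv ph x a = pv k) (hb : slot pv ph y b = pv l)
    (hk : ¬ II pv k x) (hl : ¬ II pv l y) (hkl : ¬ II pv k l) : False := by
  have A : ∀ {x y : Fin 5} (_ : II pv x y) (a b : Bool), (x ≠ y ∨ a ≠ b) →
      col x (hs a) ≠ col y (hs b) := by
    intro x y h a b hne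
    refine C.hub_hub h ?_
    intro e
    rw [Prod.mk.injEq] at e
    rcases hne with x | x
    · exact x e.1
    · exact x e.2
  have ix : II pv i x := by rcases hx with rfl | rfl; exacts [II.refl _, hij]
  have jx : II pv j x := by rcases hx with rfl | rfl; exacts [hij.symm, II.refl _]
  have iy : II pv i y := by rcases hy with rfl | rfl; exacts [II.refl _, hij]
  have jy : II pv j y := by rcases hy with rfl | rfl; exacts [hij.symm, II.refl _]
  refine six (col i (hs false)) (col i (hs true)) (col j (hs false)) (col j (hs true))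
    (col x a) (col y b) ?_
  have b1 := A (II.refl i) false true (Or.inr (by decide))
  have b2 := A (II.refl j) false true (Or.inr (by decide))
  have c1 := fun a b => A hij a b (Or.inl n1)
  have d1 := fun s => C.hub_class ix s ha hk
  have d2 := fun s => C.hub_class jx s ha hk
  have d3 := fun s => C.hub_class iy s hb hl
  have d4 := fun s => C.hub_class jy s hb hl
  have e1 := C.class_class (C.II_trans ix.symm iy) ha hb hk hl hkl
  simp [b1, b2, c1, d1, d2, d3, d4, e1]

theorem patterns : ∀ D : Fin 5 → Bool,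
    (∃ i, D i = D (i + 1) ∧ D (i + 1) = D (i + 2)) ∨
    (∃ i, D i = D (i + 1) ∧ D (i + 1) ≠ D (i + 2) ∧ D (i + 2) ≠ D (i + 3) ∧
      D (i + 3) ≠ D (i + 4) ∧ D (i + 4) ≠ D i) := by
  decide

/-- There is no canonical configuration with five colours. -/
theorem no_canon (C : Canon pv ph col) : False := by
  classical
  have ne : ∀ {i j : Fin 5}, (decide (LL pv i i) ≠ decide (LL pv j j)) → ¬ II pv i j := by
    intro i j h hI
    apply h
    have := C.dir' hI
    by_cases d : LL pv i i
    · simp [d, this.1 d]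
    · have d' : ¬ LL pv j j := fun x => d (this.2 x)
      simp [d, d']
  have eqI : ∀ {i : Fin 5}, (decide (LL pv i i) = decide (LL pv (i + 1) (i + 1))) →
      II pv i (i + 1) := by
    intro i h
    exact C.adj (by simpa using h)
  rcases patterns (fun i => decide (LL pv i i)) with ⟨i, h1, h2⟩ | ⟨i, h1, h2, h3, h4, h5⟩
  · have a1 : II pv i (i + 1) := eqI h1
    have a2 : II pv (i + 1) (i + 2) := by
      have e : i + 1 + 1 = i + 2 := by rw [add_assoc]; rfl
      have := eqI (i := i + 1) (by rw [e]; exact h2)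
      rwa [e] at this
    have g1 : ∀ i : Fin 5, i ≠ i + 1 ∧ i + 1 ≠ i + 2 ∧ i ≠ i + 2 := by decide
    exact C.three a1 a2 (g1 i).1 (g1 i).2.1 (g1 i).2.2
  · have a1 : II pv i (i + 1) := eqI h1
    have m1 : ¬ II pv (i + 1) (i + 2) := ne h2
    have m2 : ¬ II pv (i + 2) (i + 3) := ne h3
    have m3 : ¬ II pv (i + 3) (i + 4) := ne h4
    have m4 : ¬ II pv (i + 4) i := ne h5
    have g : ∀ i : Fin 5, i ≠ i + 1 ∧ i + 1 ≠ i + 3 ∧ i ≠ i + 3 ∧ i + 2 ≠ i + 4 ∧
        i - 1 = i + 4 ∧ i + 1 + 1 = i + 2 ∧ i + 2 - 1 = i + 1 ∧ i + 2 + 1 = i + 3 := by decide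
    obtain ⟨g1, g2, g3, g4, g5, g6, g7, g8⟩ := g i
    by_cases q : II pv (i + 2) (i + 4)
    · by_cases r : II pv (i + 1) (i + 3)
      · exact C.three a1 r g1 g2 g3
      · exact C.pair (i := i + 2) (j := i + 4) (x := i + 2) (y := i + 2) (k := i + 1)
          (l := i + 3) (a := 3) (b := 2) q g4 (Or.inl rfl) (Or.inl rfl)
          (by rw [slot_prev, g7]) (by rw [slot_next, g8]) m1 (fun x => m2 x.symm) r
    · exact C.pair (i := i) (j := i + 1) (x := i) (y := i + 1) (k := i + 4)
        (l := i + 2) (a := 3) (b := 2) a1 g1 (Or.inl rfl) (Or.inr rfl)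
        (by rw [slot_prev, g5]) (by rw [slot_next, g6]) m4 (fun x => m1 x.symm)
        (fun x => q x.symm)

end Pool.Agent.Helper63.SQ6
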