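import Mathlib
import Pool.Agent.Helper63.SQ6.Core

/-!
# A graph with a 2-queue layout, built from five classes with two hubs each
-/

set_option autoImplicit false

namespace Pool.Agent.Helper63.SQ6

/-- edges of the first queue (from left to right) -/
def fE (N x y : ℕ) : Prop :=
  (x = 0 ∧ 5 ≤ y ∧ y < 5 + N) ∨ (5 ≤ x ∧ x < 5 + 4 * N ∧ y = x + N) ∨
  (5 + 4 * N ≤ x ∧ x < 5 + 5 * N ∧ y = 5 * N + 8)

/-- edges of the second queue (from left to right) -/
def gE (N x y : ℕ) : Prop :=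
  (x = 1 ∧ 5 ≤ y ∧ y < 5 + N) ∨ (x = 2 ∧ 5 + N ≤ y ∧ y < 5 + 2 * N) ∨
  (x = 3 ∧ 5 + 2 * N ≤ y ∧ y < 5 + 3 * N) ∨ (x = 4 ∧ 5 + 3 * N ≤ y ∧ y < 5 + 4 * N) ∨
  (5 ≤ x ∧ x < 5 + N ∧ y = x + 4 * N) ∨ (5 + N ≤ x ∧ x < 5 + 2 * N ∧ y = 5 * N + 5) ∨
  (5 + 2 * N ≤ x ∧ x < 5 + 3 * N ∧ y = 5 * N + 6) ∨
  (5 + 3 * N ≤ x ∧ x < 5 + 4 * N ∧ y = 5 * N + 7) ∨
  (5 + 4 * N ≤ x ∧ x < 5 + 5 * N ∧ y = 5 * N + 9)

/-- the graph -/
def GG (N : ℕ) : SimpleGraph (Fin (5 * N + 10)) :=
  SimpleGraph.fromRel fun a b => fE N a b ∨ gE N a b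

theorem fE_lt {N x y : ℕ} (h : fE N x y) : x < y := by
  unfold fE at h; omega

theorem gE_lt {N x y : ℕ} (h : gE N x y) : x < y := by
  unfold gE at h; omega

theorem fE_mono {N a b x y : ℕ} (h : fE N a b) (h' : fE N x y) (hlt : a < x) : b ≤ y := by
  unfold fE at h h'; omega

theorem gE_mono {N a b x y : ℕ} (h : gE N a b) (h' : gE N x y) (hlt : a < x) : b ≤ y := by
  unfold gE at h h'; omega

theorem adj_lt {N : ℕ} {a b : Fin (5 * N + 10)} (h : (GG N).Adj a b) (hlt : a < b) :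
    fE N a b ∨ gE N a b := by
  rw [GG, SimpleGraph.fromRel_adj] at h
  rcases h.2 with h | h
  · exact h
  · exfalso
    have : (b : ℕ) < a := by rcases h with h | h; exacts [fE_lt h, gE_lt h]
    have h2 : (a : ℕ) < b := hlt
    omega

theorem queue (N : ℕ) : ∃ σ : Equiv.Perm (Fin (5 * N + 10)),
    ∃ c : Fin (5 * N + 10) → Fin (5 * N + 10) → Fin 2,
      ∀ a b x y : Fin (5 * N + 10), (GG N).Adj a b → (GG N).Adj x y → σ a < σ b → σ x < σ y →
        c a b = c x y → ¬ (σ a < σ x ∧ σ x < σ y ∧ σ y < σ b) := by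
  classical
  refine ⟨1, fun a b => if gE N a b then 1 else 0, ?_⟩
  rintro a b x y h1 h2 h3 h4 h5 ⟨h6, h7, h8⟩
  simp only [Equiv.Perm.coe_one, id_eq] at h3 h4 h6 h7 h8
  have k1 := adj_lt h1 h3
  have k2 := adj_lt h2 h4
  have h6' : (a : ℕ) < x := h6
  have h8' : (y : ℕ) < b := h8
  by_cases g1 : gE N a b
  · by_cases g2 : gE N x y
    · have := gE_mono g1 g2 h6'
      omega
    · simp [g1, g2] at h5
  · by_cases g2 : gE N x y
    · simp [g1, g2] at h5
    · have := fE_mono (k1.resolve_right g1) (k2.resolve_right g2) h6'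
      omega

/-- number of the vertex of class `i` with index `s` -/
def vtx (N : ℕ) (i : Fin 5) (s : ℕ) : ℕ := 5 + i.val * N + s

/-- code of the hub `b` of class `i` -/
def code (i : Fin 5) (b : Bool) : ℕ :=
  if b then (if i.val = 0 then 1 else if i.val = 4 then 9 else 4 + i.val)
  else (if i.val = 0 then 0 else if i.val = 4 then 8 else 1 + i.val)

/-- number of the hub `b` of class `i` -/
def hub (N : ℕ) (i : Fin 5) (b : Bool) : ℕ :=
  if code i b < 5 then code i b else 5 * N + code i b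

theorem code_inj : ∀ (i j : Fin 5) (a b : Bool), code i a = code j b → i = j ∧ a = b := by
  decide

theorem code_lt : ∀ (i : Fin 5) (b : Bool), code i b < 10 := by decide

/-- all edges as a relation of numbers -/
def eE (N x y : ℕ) : Prop := (fE N x y ∨ gE N x y) ∨ (fE N y x ∨ gE N y x)

theorem val5 (i : Fin 5) : i.val = 0 ∨ i.val = 1 ∨ i.val = 2 ∨ i.val = 3 ∨ i.val = 4 := by
  omega

theorem vtx_range {N : ℕ} (i : Fin 5) {s : ℕ} (hs : s < N) :
    5 ≤ vtx N i s ∧ vtx N i s < 5 * N + 5 := by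
  unfold vtx
  rcases val5 i with h | h | h | h | h <;> rw [h] <;> omega

theorem vtx_lt {N : ℕ} (i : Fin 5) {s : ℕ} (hs : s < N) : vtx N i s < 5 * N + 10 := by
  have := vtx_range i hs
  omega

theorem hub_lt (N : ℕ) (i : Fin 5) (b : Bool) : hub N i b < 5 * N + 10 := by
  have := code_lt i b
  unfold hub
  split_ifs <;> omega

theorem vtx_inj {N : ℕ} {i j : Fin 5} {s t : ℕ} (hs : s < N) (ht : t < N)
    (h : vtx N i s = vtx N j t) : i = j ∧ s = t := by
  unfold vtx at h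
  have e : i.val = j.val ∧ s = t := by
    rcases lt_trichotomy i.val j.val with l | l | l
    · exfalso
      have := Nat.mul_le_mul_right N (Nat.succ_le_of_lt l)
      rw [Nat.succ_mul] at this
      omega
    · rw [l] at h
      exact ⟨l, by omega⟩
    · exfalso
      have := Nat.mul_le_mul_right N (Nat.succ_le_of_lt l)
      rw [Nat.succ_mul] at this
      omega
  exact ⟨Fin.ext e.1, e.2⟩

theorem hub_inj {N : ℕ} {i j : Fin 5} {a b : Bool} (h : hub N i a = hub N j b) :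
    i = j ∧ a = b := by
  apply code_inj
  unfold hub at h
  split_ifs at h <;> omega

theorem hub_ne_vtx {N : ℕ} {i j : Fin 5} {a : Bool} {s : ℕ} (hs : s < N) :
    hub N i a ≠ vtx N j s := by
  intro h
  have := vtx_range j hs
  unfold hub at h
  split_ifs at h <;> omega

theorem hub_edge {N : ℕ} (i : Fin 5) (b : Bool) {s : ℕ} (hs : s < N) :
    eE N (vtx N i s) (hub N i b) := by
  unfold eE fE gE vtx hub code
  rcases val5 i with h | h | h | h | h <;> rw [h] <;> cases b <;> simp <;> omega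

theorem next_edge {N : ℕ} (i : Fin 5) {s : ℕ} (hs : s < N) :
    eE N (vtx N i s) (vtx N (i + 1) s) := by
  have h1 : (i.val = 4 ∧ (i + 1).val = 0) ∨ (i.val < 4 ∧ (i + 1).val = i.val + 1) := by
    revert i; decide
  rcases h1 with ⟨h1, h2⟩ | ⟨h1, h2⟩
  · refine Or.inr (Or.inr ?_)
    unfold gE vtx
    rw [h1, h2]
    refine Or.inr (Or.inr (Or.inr (Or.inr (Or.inl ⟨?_, ?_, ?_⟩)))) <;> omega
  · refine Or.inl (Or.inl (Or.inr (Or.inl ?_)))
    unfold vtx
    rw [h2]
    have : i.val * N + N ≤ 4 * N := by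
      have := Nat.mul_le_mul_right N (Nat.succ_le_of_lt h1)
      rw [Nat.succ_mul] at this
      exact this
    refine ⟨?_, ?_, ?_⟩
    · omega
    · omega
    · rw [Nat.add_mul]; omega

theorem eE_symm {N x y : ℕ} (h : eE N x y) : eE N y x := h.symm

theorem prev_edge {N : ℕ} (i : Fin 5) {s : ℕ} (hs : s < N) :
    eE N (vtx N i s) (vtx N (i - 1) s) := by
  have := next_edge (N := N) (i - 1) hs
  rw [sub_add_cancel] at this
  exact eE_symm this

end Pool.Agent.Helper63.SQ6
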