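import Mathlib
import Pool.Agent.Helper63.SQ6.Core
import Pool.Agent.Helper63.SQ6.Graph
import Pool.Agent.Helper91.Cyl.Ramsey

/-!
# The graph has no 5-stack layout
-/

set_option autoImplicit false

namespace Pool.Agent.Helper63.SQ6

/-- Ramsey's theorem for pairs, in the form of an increasing sequence of five indices. -/
theorem ramsey5 (κ : Type) [Finite κ] [Nonempty κ] :
    ∃ N : ℕ, ∀ χ : ℕ → ℕ → κ, ∃ f : Fin 5 → ℕ, StrictMono f ∧ (∀ i, f i < N) ∧
      ∃ k, ∀ i j, i < j → χ (f i) (f j) = k := by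
  classical
  obtain ⟨N, hN⟩ := Helper91.Cyl.ramsey_finite κ 2 5
  refine ⟨N, fun χ => ?_⟩
  obtain ⟨H, hH, hc, k, hk⟩ := hN fun S => χ (sInf (S : Set ℕ)) (S.sup id)
  refine ⟨H.orderEmbOfFin hc, (H.orderEmbOfFin hc).strictMono, fun i => ?_, k, ?_⟩
  · exact Finset.mem_range.1 (hH (Finset.orderEmbOfFin_mem H hc i))
  · intro i j hij
    have hlt : H.orderEmbOfFin hc i < H.orderEmbOfFin hc j := (H.orderEmbOfFin hc).strictMono hij
    have e := hk {H.orderEmbOfFin hc i, H.orderEmbOfFin hc j} ?_ (Finset.card_pair hlt.ne)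
    · have e1 : sInf (({H.orderEmbOfFin hc i, H.orderEmbOfFin hc j} : Finset ℕ) : Set ℕ) =
          H.orderEmbOfFin hc i := by
        rw [Finset.coe_pair, csInf_pair]
        exact min_eq_left hlt.le
      have e2 : ({H.orderEmbOfFin hc i, H.orderEmbOfFin hc j} : Finset ℕ).sup id =
          H.orderEmbOfFin hc j := by
        rw [Finset.sup_insert, Finset.sup_singleton]
        exact max_eq_right hlt.le
      rw [e1, e2] at e
      exact e
    · intro x hx
      rw [Finset.mem_insert, Finset.mem_singleton] at hx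
      rcases hx with rfl | rfl <;> exact Finset.orderEmbOfFin_mem H hc _

section

variable {N : ℕ}

/-- the vertex with number `x` -/
def toV (N x : ℕ) : Fin (5 * N + 10) := ⟨x % (5 * N + 10), Nat.mod_lt _ (by omega)⟩

theorem toV_val {x : ℕ} (h : x < 5 * N + 10) : (toV N x : ℕ) = x := Nat.mod_eq_of_lt h

theorem toV_adj {x y : ℕ} (hx : x < 5 * N + 10) (hy : y < 5 * N + 10) (h : eE N x y) :
    (GG N).Adj (toV N x) (toV N y) := by
  rw [GG, SimpleGraph.fromRel_adj, toV_val hx, toV_val hy]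
  refine ⟨?_, h⟩
  intro e
  have e' : x = y := by
    have := congrArg Fin.val e
    rwa [toV_val hx, toV_val hy] at this
  rcases h with (h | h) | (h | h)
  · exact absurd (fE_lt h) (by omega)
  · exact absurd (gE_lt h) (by omega)
  · exact absurd (fE_lt h) (by omega)
  · exact absurd (gE_lt h) (by omega)

theorem Cross.swap1 {p x q y : ℕ} (h : Cross p x q y) : Cross x p q y := by
  unfold Cross at h ⊢; tauto

theorem Cross.swap2 {p x q y : ℕ} (h : Cross p x q y) : Cross p x y q := by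
  unfold Cross at h ⊢; tauto

/-- symmetric colour of an edge -/
def dcol (σ : Equiv.Perm (Fin (5 * N + 10)))
    (c : Fin (5 * N + 10) → Fin (5 * N + 10) → Fin 5) (a b : Fin (5 * N + 10)) : Fin 5 :=
  if σ a < σ b then c a b else c b a

theorem noCross {σ : Equiv.Perm (Fin (5 * N + 10))}
    {c : Fin (5 * N + 10) → Fin (5 * N + 10) → Fin 5}
    (H : ∀ a b x y : Fin (5 * N + 10), (GG N).Adj a b → (GG N).Adj x y → σ a < σ b →
      σ x < σ y → c a b = c x y → σ a < σ x → σ x < σ b → ¬ σ b < σ y)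
    {a b x y : Fin (5 * N + 10)} (h1 : (GG N).Adj a b) (h2 : (GG N).Adj x y)
    (hd : dcol σ c a b = dcol σ c x y) :
    ¬ Cross (σ a : ℕ) (σ b : ℕ) (σ x : ℕ) (σ y : ℕ) := by
  intro hc
  have or : ∀ {a b : Fin (5 * N + 10)}, (GG N).Adj a b → ∃ a' b', (GG N).Adj a' b' ∧
      σ a' < σ b' ∧ c a' b' = dcol σ c a b ∧ ((a' = a ∧ b' = b) ∨ (a' = b ∧ b' = a)) := by
    intro a b h
    by_cases e : σ a < σ b
    · exact ⟨a, b, h, e, by rw [dcol, if_pos e], Or.inl ⟨rfl, rfl⟩⟩
    · have ne : σ a ≠ σ b := fun x => h.ne (σ.injective x)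
      have e' : σ b < σ a := lt_of_le_of_ne (not_lt.1 e) (Ne.symm ne)
      exact ⟨b, a, h.symm, e', by rw [dcol, if_neg e], Or.inr ⟨rfl, rfl⟩⟩
  obtain ⟨a', b', k1, k2, k3, k4⟩ := or h1
  obtain ⟨x', y', l1, l2, l3, l4⟩ := or h2
  have hc' : Cross (σ a' : ℕ) (σ b' : ℕ) (σ x' : ℕ) (σ y' : ℕ) := by
    rcases k4 with ⟨rfl, rfl⟩ | ⟨rfl, rfl⟩
    · rcases l4 with ⟨rfl, rfl⟩ | ⟨rfl, rfl⟩
      · exact hc
      · exact hc.swap2
    · rcases l4 with ⟨rfl, rfl⟩ | ⟨rfl, rfl⟩
      · exact hc.swap1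
      · exact hc.swap1.swap2
  have q1 := H a' b' x' y' k1 l1 k2 l2 (by rw [k3, l3, hd])
  have q2 := H x' y' a' b' l1 k1 l2 k2 (by rw [k3, l3, hd])
  simp only [Fin.lt_def] at k2 l2 q1 q2
  unfold Cross at hc'
  omega

end

/-- the type of the data of a pair of indices -/
abbrev Data : Type :=
  (Fin 5 → Fin 5 → Bool) × (Fin 5 → Bool → Fin 5 → Bool) × (Fin 5 → Fin 4 → Fin 5)

theorem main : ∃ N : ℕ, ∀ σ : Equiv.Perm (Fin (5 * N + 10)),
    ∀ c : Fin (5 * N + 10) → Fin (5 * N + 10) → Fin 5,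
      ∃ a b x y : Fin (5 * N + 10), (GG N).Adj a b ∧ (GG N).Adj x y ∧ σ a < σ b ∧ σ x < σ y ∧
        c a b = c x y ∧ σ a < σ x ∧ σ x < σ b ∧ σ b < σ y := by
  classical
  obtain ⟨N, hN⟩ := ramsey5 Data
  refine ⟨N, fun σ c => ?_⟩
  by_contra H0
  push Not at H0
  have H : ∀ a b x y : Fin (5 * N + 10), (GG N).Adj a b → (GG N).Adj x y → σ a < σ b →
      σ x < σ y → c a b = c x y → σ a < σ x → σ x < σ b → ¬ σ b < σ y := by
    intro a b x y h1 h2 h3 h4 h5 h6 h7
    exact not_lt.2 (H0 a b x y h1 h2 h3 h4 h5 h6 h7)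
  -- positions
  let P : ℕ → ℕ := fun x => (σ (toV N x) : ℕ)
  have Pinj : ∀ {x y : ℕ}, x < 5 * N + 10 → y < 5 * N + 10 → P x = P y → x = y := by
    intro x y hx hy h
    have := σ.injective (Fin.ext h)
    have := congrArg Fin.val this
    rwa [toV_val hx, toV_val hy] at this
  let sl : Fin 5 → Fin 4 → ℕ → ℕ := fun i a s =>
    slot (fun i s => vtx N i s) (fun i b => hub N i b) i a s
  have slE : ∀ (i : Fin 5) (a : Fin 4) {s : ℕ}, s < N → eE N (vtx N i s) (sl i a s) ∧
      sl i a s < 5 * N + 10 := by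
    intro i a s hs
    match a with
    | 0 => exact ⟨hub_edge i false hs, hub_lt _ _ _⟩
    | 1 => exact ⟨hub_edge i true hs, hub_lt _ _ _⟩
    | 2 => exact ⟨next_edge i hs, vtx_lt _ hs⟩
    | 3 => exact ⟨prev_edge i hs, vtx_lt _ hs⟩
  obtain ⟨f, hf, hfN, k, hk⟩ := hN fun s t =>
    (fun i j => decide (P (vtx N i s) < P (vtx N j t)),
      fun i b j => decide (P (hub N i b) < P (vtx N j s)),
      fun i a => dcol σ c (toV N (vtx N i s)) (toV N (sl i a s)))
  refine no_canon (pv := fun i a => P (vtx N i (f a.castSucc))) (ph := fun i b => P (hub N i b))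
    (col := k.2.2) ⟨?_, ?_, ?_, ?_, ?_, ?_⟩
  · intro i j a b e d hab hcd
    have e1 := congrFun (congrFun (congrArg Prod.fst (hk a.castSucc b.castSucc
      (by exact_mod_cast hab))) i) j
    have e2 := congrFun (congrFun (congrArg Prod.fst (hk e.castSucc d.castSucc
      (by exact_mod_cast hcd))) i) j
    exact decide_eq_decide.1 (e1.trans e2.symm)
  · intro i b j a e
    have e1 := congrFun (congrFun (congrFun (congrArg (fun z => z.2.1) (hk a.castSucc
      (Fin.last 4) (Fin.castSucc_lt_last a))) i) b) j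
    have e2 := congrFun (congrFun (congrFun (congrArg (fun z => z.2.1) (hk e.castSucc
      (Fin.last 4) (Fin.castSucc_lt_last e))) i) b) j
    exact decide_eq_decide.1 (e1.trans e2.symm)
  · intro i j a b hne e
    obtain ⟨e1, e2⟩ := vtx_inj (hfN _) (hfN _) (Pinj (vtx_lt i (hfN _)) (vtx_lt j (hfN _)) e)
    apply hne
    rw [Prod.mk.injEq]
    exact ⟨e1, Fin.castSucc_injective _ (hf.injective e2)⟩
  · intro i j a b hne e
    obtain ⟨e1, e2⟩ := hub_inj (Pinj (hub_lt N i a) (hub_lt N j b) e)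
    exact hne (by rw [e1, e2])
  · intro i j a b e
    exact hub_ne_vtx (hfN _) (Pinj (hub_lt N i a) (vtx_lt j (hfN b.castSucc)) e)
  · intro i j a b s t hcol
    have sE : ∀ (i : Fin 5) (a : Fin 4) (s : Fin 4),
        slot (fun i a => P (vtx N i (f a.castSucc))) (fun i b => P (hub N i b)) i a s =
          P (sl i a (f s.castSucc)) := by
      intro i a s
      match a with
      | 0 => rfl
      | 1 => rfl
      | 2 => rfl
      | 3 => rfl
    rw [sE, sE]
    have c1 : ∀ (i : Fin 5) (a : Fin 4) (s : Fin 4),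
        dcol σ c (toV N (vtx N i (f s.castSucc))) (toV N (sl i a (f s.castSucc))) =
          k.2.2 i a := by
      intro i a s
      exact congrFun (congrFun (congrArg (fun z => z.2.2) (hk s.castSucc
        (Fin.last 4) (Fin.castSucc_lt_last s))) i) a
    have m1 := slE i a (hfN s.castSucc)
    have m2 := slE j b (hfN t.castSucc)
    exact noCross H (toV_adj (vtx_lt i (hfN _)) m1.2 m1.1) (toV_adj (vtx_lt j (hfN _)) m2.2 m2.1)
      (by rw [c1, c1, hcol])

end Pool.Agent.Helper63.SQ6
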